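import Pool.Agent.Lib.MP_322c5f_al.Final

/-!
# MP_322c5f_al : squares of irreducible characters of alternating groups

For all sufficiently large `n` the alternating group `A_n` has an irreducible complex
representation `V` such that every irreducible complex representation occurs in `V ⊗ V`.
-/

set_option autoImplicit false
open CategoryTheory
open scoped CategoryTheory.MonoidalCategory

namespace Pool.Agent.Results.MP_322c5f_al.LargeN

/-- There is `N` such that for every `n ≥ N` there is an irreducible complex representation `V`
of `A_n` such that every irreducible complex representation `W` of `A_n` admits a nonzero map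
into `V ⊗ V`. -/
theorem result :
    ∃ N : ℕ, ∀ n : ℕ, N ≤ n →
      ∃ V : FDRep ℂ (alternatingGroup (Fin n)),
        Simple V ∧
          ∀ W : FDRep ℂ (alternatingGroup (Fin n)), Simple W →
            ∃ f : W ⟶ V ⊗ V, f ≠ 0 :=
  Pool.MP322.main_large

end Pool.Agent.Results.MP_322c5f_al.LargeN
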